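import Pool.Agent.Helper90.TS.Stmts

set_option autoImplicit false

/-! Module DGM: types over saturated sets are stationary. -/

namespace Pool.Agent.Helper90.TS

/-- translate of a section of a set definable without parameters -/
theorem dgm_tr {V G : Type} [Group G] [MulAction G V] {X : Ctx V G} {κ ι : Type}
    {E : Set (κ ⊕ ι → V)} (hE : X.Ov (∅ : Set V) E) (g : G) (u : κ → V) (x : ι → V) :
    Sum.elim u (g⁻¹ • x) ∈ E ↔ Sum.elim (g • u) x ∈ E := by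
  have h1 : Sum.elim u (g⁻¹ • x) = g⁻¹ • Sum.elim (g • u) x := by
    rw [smul_elim, inv_smul_smul]
  rw [h1]
  exact inv_iff ((ov_empty_iff X).1 hE).2 (Subgroup.mem_top _) _

theorem st_DGM (hU : ST_UNID) (hF : ST_FSUP) (hG : ST_GEN) (hR : ST_RBAS) : ST_DGM := by
  intro V G _ _ X M hM ι _ b
  obtain ⟨D, hD, hbD, hDr, hDu⟩ := hU V G X M hM.1 ι b
  obtain ⟨R1, _, R3, _, _⟩ := hR V G X ι
  refine ⟨D, hD, hbD, (hDr _).2 le_rfl, ?_, ?_⟩
  · intro h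
    exact absurd ((hDr _).1 h) (not_le.2 (Order.lt_succ _))
  intro E F hE hF' hdis hRE hRF
  obtain ⟨m, a, Ds, ha, hDs, hDe⟩ := hF V G X M hM.1 ι D hD
  have hEd : E ∈ X.Df ι := ((rge_iff X _ E).1 hRE).1
  have hFd : F ∈ X.Df ι := ((rge_iff X _ F).1 hRF).1
  obtain ⟨m1, Es, u, hEs, hEe⟩ := ov_param hEd
  obtain ⟨m2, Fs, v, hFs, hFe⟩ := ov_param hFd
  obtain ⟨w, hw, g, hg, hgw⟩ := hM.2 (Set.range a) ha (Set.finite_range a) (Fin m1 ⊕ Fin m2)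
    (Sum.elim u v)
  rw [smul_elim] at hgw
  have hgu : Set.range (g • u) ⊆ M := by
    rintro _ ⟨i, rfl⟩
    apply hw
    exact ⟨Sum.inl i, by rw [← hgw]; rfl⟩
  have hgv : Set.range (g • v) ⊆ M := by
    rintro _ ⟨i, rfl⟩
    apply hw
    exact ⟨Sum.inr i, by rw [← hgw]; rfl⟩
  have hga : g • a = a := fx_range.1 hg
  have hDinv : ∀ x, g⁻¹ • x ∈ D → x ∈ D := by
    intro x hx
    rw [hDe] at hx ⊢
    have := (dgm_tr hDs g a x).1 hx
    rwa [hga] at this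
  have eE : {x | g⁻¹ • x ∈ E} = {x | Sum.elim (g • u) x ∈ Es} := by
    ext x
    simp only [Set.mem_ofPred_eq]
    conv_lhs => rw [hEe]
    exact dgm_tr hEs g u x
  have eF : {x | g⁻¹ • x ∈ F} = {x | Sum.elim (g • v) x ∈ Fs} := by
    ext x
    simp only [Set.mem_ofPred_eq]
    conv_lhs => rw [hFe]
    exact dgm_tr hFs g v x
  have oE : X.Ov M {x | g⁻¹ • x ∈ E} := by
    rw [eE]
    exact ov_sec' (ov_mono X (Set.empty_subset _) hEs) hgu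
  have oF : X.Ov M {x | g⁻¹ • x ∈ F} := by
    rw [eF]
    exact ov_sec' (ov_mono X (Set.empty_subset _) hFs) hgv
  have rE : X.Rge (X.rk M b) {x | g⁻¹ • x ∈ E} := (R3 _ E g⁻¹).2 hRE
  have rF : X.Rge (X.rk M b) {x | g⁻¹ • x ∈ F} := (R3 _ F g⁻¹).2 hRF
  have sE : {x | g⁻¹ • x ∈ E} ⊆ D := fun x hx => hDinv x (hE hx)
  have sF : {x | g⁻¹ • x ∈ F} ⊆ D := fun x hx => hDinv x (hF' hx)
  have nD : ¬ X.Rge (Order.succ (X.rk M b)) D := by
    intro h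
    exact absurd ((hDr _).1 h) (not_le.2 (Order.lt_succ _))
  obtain ⟨b1, hb1, hr1⟩ := hG V G X M hM.1 ι _ _ oE rE
    (fun h => nD (R1 _ _ _ hD.1 sE h))
  obtain ⟨b2, hb2, hr2⟩ := hG V G X M hM.1 ι _ _ oF rF
    (fun h => nD (R1 _ _ _ hD.1 sF h))
  obtain ⟨k, hk, hk2⟩ := eqv_trans (eqv_symm (hDu b1 (sE hb1) hr1)) (hDu b2 (sF hb2) hr2)
  have hb2E : b2 ∈ {x | g⁻¹ • x ∈ E} := by
    rw [← hk2]
    exact oE.2 k hk b1 hb1
  exact Set.disjoint_left.1 hdis hb2E hb2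

end Pool.Agent.Helper90.TS
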