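import Pool.Agent.Helper90.TS.Stmts

set_option autoImplicit false

/-! Module SATM: existence of saturated countable sets. -/

namespace Pool.Agent.Helper90.TS

/-- one step: add the coordinates of representatives of all orbits over finite subsets -/
def satm_step {V : Type} (T : Set V → (n : ℕ) → Set (Fin n → V)) (M : Set V) : Set V :=
  M ∪ ⋃ A0 ∈ {A0 : Set V | A0.Finite ∧ A0 ⊆ M}, ⋃ n : ℕ, ⋃ i : Fin n, (fun y => y i) '' (T A0 n)

/-- the increasing sequence of countable sets -/
def satm_seq {V : Type} (T : Set V → (n : ℕ) → Set (Fin n → V)) (A : Set V) : ℕ → Set V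
  | 0 => A
  | k + 1 => satm_step T (satm_seq T A k)

theorem satm_mono {V : Type} (T : Set V → (n : ℕ) → Set (Fin n → V)) (A : Set V) :
    Monotone (satm_seq T A) :=
  monotone_nat_of_le_succ fun _ => Set.subset_union_left

theorem st_SATM : ST_SATM := by
  classical
  intro V G _ _ X A hA
  have hT : ∀ (A : Set V) (n : ℕ), ∃ T : Set (Fin n → V), T.Countable ∧
      (A.Countable → ∀ x, ∃ y ∈ T, ∃ g ∈ Fx G A, g • y = x) := by
    intro A n
    by_cases h : A.Countable
    · obtain ⟨T, h1, h2⟩ := X.ost A h n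
      exact ⟨T, h1, fun _ => h2⟩
    · exact ⟨∅, Set.countable_empty, fun h' => absurd h' h⟩
  choose T hT1 hT2 using hT
  have hc : ∀ k, (satm_seq T A k).Countable := by
    intro k
    induction k with
    | zero => exact hA
    | succ k ih =>
      refine ih.union ?_
      refine Set.Countable.biUnion (Set.countable_setOf_finite_subset ih) fun A0 _ => ?_
      refine Set.countable_iUnion fun n => Set.countable_iUnion fun i => ?_
      exact (hT1 A0 n).image _
  refine ⟨⋃ k, satm_seq T A k, Set.subset_iUnion (satm_seq T A) 0, Set.countable_iUnion hc, ?_⟩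
  intro A0 hA0 hfin ι _ b
  obtain ⟨k, hk⟩ : ∃ k, A0 ⊆ satm_seq T A k := by
    induction A0, hfin using Set.Finite.induction_on with
    | empty => exact ⟨0, Set.empty_subset _⟩
    | @insert a s _ _ ih =>
      obtain ⟨k1, h1⟩ := ih ((Set.subset_insert _ _).trans hA0)
      obtain ⟨k2, h2⟩ := Set.mem_iUnion.1 (hA0 (Set.mem_insert a s))
      refine ⟨max k1 k2, ?_⟩
      rintro x (rfl | hx)
      · exact satm_mono T A (le_max_right _ _) h2
      · exact satm_mono T A (le_max_left _ _) (h1 hx)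
  obtain ⟨n, ⟨e⟩⟩ := Finite.exists_equiv_fin ι
  obtain ⟨y, hy, g, hg, hgy⟩ := hT2 A0 n hfin.countable (b ∘ e.symm)
  refine ⟨y ∘ e, ?_, g⁻¹, inv_mem hg, ?_⟩
  · rintro _ ⟨j, rfl⟩
    refine Set.mem_iUnion.2 ⟨k + 1, Or.inr ?_⟩
    refine Set.mem_biUnion (show A0 ∈ {A0 : Set V | A0.Finite ∧ A0 ⊆ satm_seq T A k} from
      ⟨hfin, hk⟩) ?_
    exact Set.mem_iUnion.2 ⟨n, Set.mem_iUnion.2 ⟨e j, y, hy, rfl⟩⟩
  · rw [inv_smul_eq_iff]
    funext j
    have := congrFun hgy (e j)
    simp only [Function.comp_apply, Equiv.symm_apply_apply] at this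
    exact this.symm

end Pool.Agent.Helper90.TS
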