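import Pool.Agent.Helper90.TS.Stmts

set_option autoImplicit false

/-! Module TYPE: types over countable sets are orbits. -/

namespace Pool.Agent.Helper90.TS

theorem st_TYPE : ST_TYPE := by
  classical
  intro V G _ _ X A hA ι _ b b' h
  rcases isEmpty_or_nonempty ι with hι | hι
  · exact ⟨1, one_mem _, Subsingleton.elim _ _⟩
  have hAc : Countable A := hA
  obtain ⟨τ, hτ⟩ := exists_surjective_nat (ι ⊕ A)
  have key : ∀ n, ∀ D ∈ X.Df (Fin n), Inv (⊤ : Subgroup G) D →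
      ((fun i : Fin n => Sum.elim b (Subtype.val : A → V) (τ i)) ∈ D ↔
        (fun i : Fin n => Sum.elim b' (Subtype.val : A → V) (τ i)) ∈ D) := by
    intro n D hD hi
    have hD0 : X.Ov (∅ : Set V) D := (ov_empty_iff X).2 ⟨hD, hi⟩
    let κ : Type := {i : Fin n // ∃ y, τ i = Sum.inr y}
    let a : κ → V := fun i => (i.2.choose : A).1
    have ha : Set.range a ⊆ A := by
      rintro _ ⟨i, rfl⟩
      exact (i.2.choose : A).2
    have hσ : ∀ i : Fin n, ∃ s : κ ⊕ ι, ∀ x : ι → V,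
        Sum.elim a x s = Sum.elim x (Subtype.val : A → V) (τ i) := by
      intro i
      rcases hτi : τ i with j | y
      · exact ⟨Sum.inr j, fun x => rfl⟩
      · have hy : ∃ y, τ i = Sum.inr y := ⟨y, hτi⟩
        refine ⟨Sum.inl ⟨i, hy⟩, fun x => ?_⟩
        have e : hy.choose = y := Sum.inr_injective (hy.choose_spec.symm.trans hτi)
        change (hy.choose : A).1 = y.1
        rw [e]
    choose σ hσ using hσ
    obtain ⟨Ba, hBa, haB⟩ := ov_sort (X := X) a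
    obtain ⟨B, hB, hbB⟩ := ov_sort (X := X) b
    have h1 := ov_sub hD0 (ov_prod hBa hB) σ
    have h2 : X.Ov A {x : ι → V | Sum.elim a x ∈ {z : κ ⊕ ι → V |
        z ∈ {z : κ ⊕ ι → V | z ∘ Sum.inl ∈ Ba ∧ z ∘ Sum.inr ∈ B} ∧ z ∘ σ ∈ D}} :=
      ov_sec' (ov_mono X (Set.empty_subset _) h1) ha
    have hH : ∀ x : ι → V, x ∈ {x : ι → V | Sum.elim a x ∈ {z : κ ⊕ ι → V |
        z ∈ {z : κ ⊕ ι → V | z ∘ Sum.inl ∈ Ba ∧ z ∘ Sum.inr ∈ B} ∧ z ∘ σ ∈ D}} ↔
        x ∈ B ∧ (fun i : Fin n => Sum.elim x (Subtype.val : A → V) (τ i)) ∈ D := by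
      intro x
      have e : Sum.elim a x ∘ σ = fun i : Fin n => Sum.elim x (Subtype.val : A → V) (τ i) :=
        funext fun i => hσ i x
      simp only [Set.mem_ofPred_eq, Sum.elim_comp_inl, Sum.elim_comp_inr, e]
      exact ⟨fun h => ⟨h.1.2, h.2⟩, fun h => ⟨⟨haB, h.1⟩, h.2⟩⟩
    have hb'B : b' ∈ B := h B (ov_mono X (Set.empty_subset _) hB) hbB
    constructor
    · intro hb
      exact ((hH b').1 (h _ h2 ((hH b).2 ⟨hbB, hb⟩))).2
    · intro hb'
      by_contra hcon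
      have h3 := h _ (ov_diff (ov_mono X (Set.empty_subset _) hB) h2)
        ⟨hbB, fun h4 => hcon ((hH b).1 h4).2⟩
      exact h3.2 ((hH b').2 ⟨hb'B, hb'⟩)
  obtain ⟨g, hg⟩ := X.hom (fun n => Sum.elim b (Subtype.val : A → V) (τ n))
    (fun n => Sum.elim b' (Subtype.val : A → V) (τ n)) key
  refine ⟨g, ?_, ?_⟩
  · intro y hy
    obtain ⟨n, hn⟩ := hτ (Sum.inr ⟨y, hy⟩)
    have := hg n
    simp only [hn, Sum.elim_inr] at this
    exact this
  · funext j
    obtain ⟨n, hn⟩ := hτ (Sum.inl j)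
    have := hg n
    simp only [hn, Sum.elim_inl] at this
    exact this

end Pool.Agent.Helper90.TS
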